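import Pool.Agent.Helper55_CRT.PSI
import Pool.Agent.Helper37_CRT.SUA
import Pool.Agent.Helper62_CRT.SUB
import Pool.Agent.Helper34_CRT.DUA
import Pool.Agent.Helper49_CRT.DUB
import Pool.Agent.Helper49_CRT.LOW
import Pool.Agent.Helper76_CRT.NBH
import Pool.Agent.Helper16_CRT.LAT
import Pool.Agent.Helper81_CRT.NSM
import Pool.Agent.Helper8_CRT.FAR
import Pool.Agent.Helper41_CRT.SEC
import Pool.Agent.Helper8_CRT.TRI
import Pool.Agent.Helper81_CRT.SOL
import Pool.Agent.Helper41_CRT.UPB
import Pool.Agent.Helper41_CRT.CMB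
import Pool.Agent.Helper58_CRT.RDC
import Pool.Agent.Helper94_CRT.CEL
import Pool.Agent.Helper55_CRT.THB
import Pool.Agent.Helper58_CRT.NulA
import Pool.Agent.Helper30_CRT.ANA

/-!
# Squad CRT (MP_46529f_an): assembly of the analytic part, up to the kernel bound KER
-/

namespace Pool.Agent.CRT.H75

/-- the analytic statement from the kernel bound -/
theorem an_of (hK : PsiStmt → SuaStmt → SubStmt → KerStmt) : Pool.Agent.CRP.AnStmt :=
  have psi : PsiStmt := H55.psi
  have ker : KerStmt := hK psi H37.sua H62.sub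
  have dua : DuaStmt := H34.dua psi
  have dub : DubStmt := H49.dub dua psi
  have low : LowStmt := H49.low
  have nbh : NbhStmt := H76.nbh
  have lat : LatStmt := H16.lat
  have nsm : NsmStmt := H81.nsm ker nbh lat
  have far : FarStmt := H8.far nsm ker
  have sec : SecStmt := H41.sec psi
  have tri : TriStmt := H8.tri
  have sol : SolStmt := H81.Sol.sol tri nbh lat
  have upb : UpbStmt := H41.upb ker nbh lat sec sol
  have cmb : CmbStmt := H41.cmb dub low far upb
  have cel : CelStmt := H94.cel H58.rdc cmb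
  have thb : ThbStmt := H55.thb cel
  H30.ana thb H58.nul

end Pool.Agent.CRT.H75
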