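import Pool.Agent.Helper88_CRT.KER
import Pool.Agent.Helper75_CRT.Final0
import Pool.Agent.Helper90_CRP.Main

/-!
# Squad CRT (MP_46529f_an): assembly of the analytic part
-/

namespace Pool.Agent.CRT.H75

/-- the analytic statement: for almost every pair of columns the linear images of a discrete
quadratically growing set have only finitely many close directions -/
theorem an : Pool.Agent.CRP.AnStmt := an_of H88.ker

end Pool.Agent.CRT.H75
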